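import Pool.Agent.H69.MQ.Stm

/-! # Crew MQ, part BTW -/

set_option autoImplicit false

namespace Pool.Agent.H55.MQ

open Finset Pool.Agent.H69.MQ

theorem count {n : ℕ} (x y z : Fin n → Bool) :
    (univ.filter fun i => x i ≠ y i).card + (univ.filter fun i => y i ≠ z i).card =
      (univ.filter fun i => x i ≠ z i).card + 2 * (univ.filter fun i => x i = z i ∧ y i ≠ x i).card := by
  rw [Finset.card_filter, Finset.card_filter, Finset.card_filter, Finset.card_filter,
    Finset.mul_sum, ← Finset.sum_add_distrib, ← Finset.sum_add_distrib]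
  refine Finset.sum_congr rfl fun i _ => ?_
  cases x i <;> cases y i <;> cases z i <;> simp

theorem t_BTW (hDST : S_DST) : S_BTW := by
  intro n x y z
  rw [hDST, hDST, hDST, count x y z]
  constructor
  · intro h
    have h1 : (univ.filter fun i => x i = z i ∧ y i ≠ x i).card ≠ 0 := by
      intro h0
      apply h
      rw [h0]
      simp
    obtain ⟨i, hi⟩ := Finset.card_pos.1 (Nat.pos_of_ne_zero h1)
    exact ⟨i, (mem_filter.1 hi).2⟩
  · rintro ⟨i, hi⟩ h
    have : 0 < (univ.filter fun i => x i = z i ∧ y i ≠ x i).card :=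
      Finset.card_pos.2 ⟨i, mem_filter.2 ⟨mem_univ _, hi⟩⟩
    omega

end Pool.Agent.H55.MQ
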