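import Pool.Agent.H69.MQ.Stm

/-! # Crew MQ, part DST -/

set_option autoImplicit false

namespace Pool.Agent.H55.MQ

open Finset Pool.Agent.H69.MQ

/-- number of different coordinates -/
def hd {n : ℕ} (x y : Fin n → Bool) : ℕ := (univ.filter fun i => x i ≠ y i).card

theorem hd_tri {n : ℕ} (x y z : Fin n → Bool) : hd x z ≤ hd x y + hd y z := by
  unfold hd
  refine (Finset.card_le_card ?_).trans (Finset.card_union_le _ _)
  intro i hi
  rw [mem_filter] at hi
  rw [mem_union, mem_filter, mem_filter]
  by_cases h : x i = y i
  · right
    exact ⟨mem_univ _, fun h' => hi.2 (h.trans h')⟩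
  · left
    exact ⟨mem_univ _, h⟩

theorem walk_ge {n : ℕ} {x y : Fin n → Bool} (w : (cube n).Walk x y) : hd x y ≤ w.length := by
  induction w with
  | nil => simp [hd]
  | @cons a b c h p ih =>
    rw [SimpleGraph.Walk.length_cons]
    have h1 : hd a b = 1 := h
    have := hd_tri a b c
    omega

theorem exists_walk {n : ℕ} (k : ℕ) : ∀ x y : Fin n → Bool, hd x y = k →
    ∃ w : (cube n).Walk x y, w.length = k := by
  induction k with
  | zero =>
    intro x y h
    have hxy : x = y := by
      funext i
      by_contra hne
      have : i ∈ univ.filter fun i => x i ≠ y i := mem_filter.2 ⟨mem_univ _, hne⟩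
      unfold hd at h
      rw [Finset.card_eq_zero] at h
      rw [h] at this
      exact absurd this (notMem_empty i)
    subst hxy
    exact ⟨SimpleGraph.Walk.nil, rfl⟩
  | succ k ih =>
    intro x y h
    have hpos : (univ.filter fun i => x i ≠ y i).Nonempty := by
      rw [← Finset.card_pos]
      unfold hd at h
      omega
    obtain ⟨i, hi⟩ := hpos
    have hne : x i ≠ y i := (mem_filter.1 hi).2
    have h1 : (cube n).Adj x (Function.update x i (y i)) := by
      change (univ.filter fun j => x j ≠ Function.update x i (y i) j).card = 1
      rw [Finset.card_eq_one]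
      refine ⟨i, ?_⟩
      ext j
      rw [mem_filter, mem_singleton]
      constructor
      · rintro ⟨-, hj⟩
        by_contra hji
        rw [Function.update_of_ne hji] at hj
        exact hj rfl
      · rintro rfl
        exact ⟨mem_univ _, by rw [Function.update_self]; exact hne⟩
    have h2 : hd (Function.update x i (y i)) y = k := by
      have h3 : (univ.filter fun j => Function.update x i (y i) j ≠ y j) =
          (univ.filter fun j => x j ≠ y j).erase i := by
        ext j
        rw [mem_filter, mem_erase, mem_filter]
        constructor
        · rintro ⟨-, hj⟩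
          have hji : j ≠ i := by
            rintro rfl
            rw [Function.update_self] at hj
            exact hj rfl
          rw [Function.update_of_ne hji] at hj
          exact ⟨hji, mem_univ _, hj⟩
        · rintro ⟨hji, -, hj⟩
          exact ⟨mem_univ _, by rw [Function.update_of_ne hji]; exact hj⟩
      unfold hd at h ⊢
      rw [h3, Finset.card_erase_of_mem hi, h]
      rfl
    obtain ⟨w, hw⟩ := ih _ _ h2
    exact ⟨SimpleGraph.Walk.cons h1 w, by rw [SimpleGraph.Walk.length_cons, hw]⟩

theorem t_DST : S_DST := by
  intro n x y
  change (cube n).dist x y = hd x y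
  obtain ⟨w, hw⟩ := exists_walk (hd x y) x y rfl
  apply le_antisymm
  · rw [← hw]; exact SimpleGraph.dist_le w
  · obtain ⟨w', hw'⟩ := (SimpleGraph.Walk.reachable w).exists_walk_length_eq_dist
    rw [← hw']
    exact walk_ge w'

end Pool.Agent.H55.MQ
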